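import Pool.Agent.H79.Sys.Gadget
import Pool.Agent.H62.Log.Cert

/-!
# The equations attached to blocks and to hyperbolic systems
-/

open Polynomial Topology Filter

namespace Pool.Agent.H79.Sys

open Pool.Agent.H17 Pool.Agent.H17.EntFun Pool.Agent.H92.GGL Pool.Agent.H79.Log

variable {Q T : Type}

/-- The ranks of the blocks and of the systems. -/
abbrev sysRank (r : Q → ℕ) (ρ : T → ℕ) : Q ⊕ T → ℕ := Sum.elim r ρ

/-- **Equations attached to blocks and systems.**  The forms with index in `A` play no role. -/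
theorem cert_of_systems [Fintype Q] [DecidableEq Q] (n c : ℕ) (d : Fin c → ℕ)
    (hd : ∀ l, 1 ≤ d l)
    (r : Q → ℕ) (hr : ∀ q, r q ≤ 2) (B : Q → Finset (Fin c))
    (hB : ∀ q q', q ≠ q' → Disjoint (B q) (B q')) (K : T → Finset (Fin c)) (ρ : T → ℕ)
    (hKK : ∀ t t', t ≠ t' → Disjoint (K t) (K t'))
    (hBK : ∀ q t, Disjoint (B q) (K t)) (A : Finset (Fin c)) (hBA : ∀ q, Disjoint (B q) A)
    (hKA : ∀ t, Disjoint (K t) A)
    (hnum : ∀ q, ∀ e ρ : ℕ, 0 < e → 0 < ρ → ρ + e ≤ r q + 1 →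
      2 * ρ + ∑ l ∈ B q, min (d l) (e * ρ) < ∑ l ∈ B q, d l)
    (hK : ∀ t, HasHyperbolicSystem (ρ t) fun l : {l // l ∈ K t} => d l.1)
    (z : Entry (sysRank r ρ) n → ℂ) :
    ∃ G : Fin c → MvPolynomial (Fin (n + c + 1)) ℂ, (∀ l, (G l).IsHomogeneous (d l)) ∧
      ∀ x : Fin (n + c + 1) → EntFun, (∀ l, l ∉ A → MvPolynomial.aeval x (G l) = 0) →
        (∀ q, BlockSpecial z q fun k => x (xIdx k)) ∧
        ∀ v : EntFun, (∀ k, ∃ a : ℂ, x (xIdx k) = algebraMap ℂ EntFun a * v) →
          ∀ l, l ∉ A → ∃ b : ℂ, x (wIdx l) = algebraMap ℂ EntFun b * v := by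
  classical
  obtain ⟨ν, hν⟩ := Countable.exists_injective_nat (Σ l, Fin (d l))
  choose g hg hbr hgood using fun t =>
    exists_good_system (fun l : {l // l ∈ K t} => hd l.1) (hK t)
  set G : Fin c → MvPolynomial (Fin (n + c + 1)) ℂ := fun l =>
    if h : ∃ q, l ∈ B q then MvPolynomial.X (wIdx l) ^ d l -
      ∏ j : Fin (d l), nodeForm c z (Sum.inl h.choose) (ν ⟨l, j⟩)
    else if hl : ∃ t, l ∈ K t then sysForm (κ := {l // l ∈ K hl.choose}) z (Sum.inr hl.choose)
      (fun l' => l'.1) (g hl.choose ⟨l, hl.choose_spec⟩)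
    else MvPolynomial.X (wIdx l) ^ d l with hG
  have hGhom : ∀ l, (G l).IsHomogeneous (d l) := by
    intro l
    simp only [hG]
    split_ifs with h hl
    · refine (MvPolynomial.isHomogeneous_X_pow _ _).sub ?_
      have h1 := MvPolynomial.IsHomogeneous.prod Finset.univ
        (fun j : Fin (d l) => nodeForm c z (Sum.inl h.choose) (ν ⟨l, j⟩)) (fun _ => 1)
        (fun j _ => nodeForm_isHomogeneous c z (Sum.inl h.choose) _)
      rwa [Finset.sum_const, Finset.card_univ, Fintype.card_fin, smul_eq_mul, mul_one] at h1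
    · exact sysForm_isHomogeneous (κ := {l // l ∈ K hl.choose}) z (Sum.inr hl.choose)
        (fun l' => l'.1) (hg hl.choose ⟨l, hl.choose_spec⟩)
    · exact MvPolynomial.isHomogeneous_X_pow _ _
  refine ⟨G, hGhom, ?_⟩
  intro x hrel
  -- the equations
  have g1 : ∀ q, ∀ l ∈ B q, x (wIdx l) ^ d l =
      ∏ j : Fin (d l), evC (ν ⟨l, j⟩ : ℂ) (blockPoly z (Sum.inl q) fun k => x (xIdx k)) := by
    intro q l hl
    have h1 := hrel l (Finset.disjoint_left.mp (hBA q) hl)
    have hex : ∃ q, l ∈ B q := ⟨q, hl⟩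
    have hch : hex.choose = q := by
      by_contra hne
      exact Finset.disjoint_left.mp (hB _ _ hne) hex.choose_spec hl
    simp only [hG, dif_pos hex] at h1
    rw [hch, map_sub, map_pow, MvPolynomial.aeval_X, map_prod, sub_eq_zero] at h1
    rw [h1]
    exact Finset.prod_congr rfl fun j _ => (evC_blockPoly z (Sum.inl q) x _).symm
  have g2 : ∀ t (l : {l // l ∈ K t}), MvPolynomial.aeval (sysVec (κ := {l // l ∈ K t}) z
      (Sum.inr t) (fun k => x (xIdx k)) fun l' => x (wIdx l'.1)) (g t l) = 0 := by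
    rintro t ⟨l, hl⟩
    have h1 := hrel l (Finset.disjoint_left.mp (hKA t) hl)
    have hex : ¬ ∃ q, l ∈ B q := fun ⟨q, hq⟩ => Finset.disjoint_left.mp (hBK q t) hq hl
    have hex2 : ∃ t, l ∈ K t := ⟨t, hl⟩
    have hch : hex2.choose = t := by
      by_contra hne
      exact Finset.disjoint_left.mp (hKK _ _ hne) hex2.choose_spec hl
    simp only [hG, dif_neg hex, dif_pos hex2] at h1
    have h3 := (aeval_sysForm (r := sysRank r ρ) (κ := {l // l ∈ K hex2.choose}) z
      (Sum.inr hex2.choose) (fun l' => l'.1) (g hex2.choose ⟨l, hex2.choose_spec⟩) x).symm.trans h1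
    have h2 : ∀ t' (ht' : t' = t) (hl' : l ∈ K t'),
        MvPolynomial.aeval (sysVec (κ := {l // l ∈ K t'}) z
          (Sum.inr t') (fun k => x (xIdx k)) fun l' => x (wIdx l'.1)) (g t' ⟨l, hl'⟩) =
        MvPolynomial.aeval (sysVec (κ := {l // l ∈ K t}) z
          (Sum.inr t) (fun k => x (xIdx k)) fun l' => x (wIdx l'.1)) (g t ⟨l, hl⟩) := by
      rintro t' rfl hl'
      rfl
    rw [← h2 _ hch hex2.choose_spec]
    exact h3
  have g3 : ∀ l, l ∉ A → (¬ ∃ q, l ∈ B q) → (¬ ∃ t, l ∈ K t) → x (wIdx l) = 0 := by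
    intro l hlA hl hl'
    have h1 := hrel l hlA
    simp only [hG, dif_neg hl, dif_neg hl'] at h1
    rw [map_pow, MvPolynomial.aeval_X] at h1
    exact pow_eq_zero_iff (by have := hd l; omega) |>.mp h1
  refine ⟨?_, ?_⟩
  · -- all blocks are in special position
    intro q
    rcases q with q | t
    · refine blockSpecial_of_block (q := Sum.inl q) (hr q) (L := {l // l ∈ B q}) (fun l => d l)
        (fun l => hd l) (fun i => ν ⟨i.1.1, i.2⟩) ?_ (fun k => x (xIdx k))
        (fun l => x (wIdx l.1)) (fun l => g1 q l.1 l.2) ?_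
      · rintro ⟨⟨l, hl⟩, j⟩ ⟨⟨l', hl'⟩, j'⟩ h
        have h1 := hν h
        simp only [Sigma.mk.injEq] at h1
        obtain ⟨rfl, h2⟩ := h1
        simp only [heq_eq_eq] at h2
        rw [h2]
      · intro e ρ he hρ heρ
        have h1 := hnum q e ρ he hρ heρ
        rw [← Finset.sum_coe_sort (B q), ← Finset.sum_coe_sort (B q)] at h1
        exact h1
    · exact blockSpecial_of_system (r := sysRank r ρ) (z := z) (q := (Sum.inr t : Q ⊕ T))
        (hg t) (hbr t) (fun k => x (xIdx k)) (fun l' => x (wIdx l'.1)) (g2 t)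
  · -- the other coordinates, if the base coordinates are proportional
    intro v hv l hlA
    by_cases hl : ∃ q, l ∈ B q
    · obtain ⟨q, hl⟩ := hl
      have h4 := g1 q l hl
      choose a ha using hv
      have h5 : ∀ j : Fin (d l), ∃ γ : ℂ,
          evC (ν ⟨l, j⟩ : ℂ) (blockPoly z (Sum.inl q) fun k => x (xIdx k)) =
            algebraMap ℂ EntFun γ * v := by
        intro j
        refine ⟨∑ i : Fin (sysRank r ρ (Sum.inl q) + 1), (∑ k, z ⟨Sum.inl q, i, k⟩ * a k) *
          (ν ⟨l, j⟩ : ℂ) ^ (i : ℕ), ?_⟩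
        unfold evC blockPoly
        rw [polyOf_eval', map_sum, Finset.sum_mul]
        refine Finset.sum_congr rfl fun i _ => ?_
        rw [map_mul, map_sum, map_pow]
        have h6 : ∑ k, algebraMap ℂ EntFun (z ⟨Sum.inl q, i, k⟩) * x (xIdx k) =
            (∑ k, algebraMap ℂ EntFun (z ⟨Sum.inl q, i, k⟩ * a k)) * v := by
          rw [Finset.sum_mul]
          refine Finset.sum_congr rfl fun k _ => ?_
          conv_lhs => rw [ha k]
          rw [map_mul]
          ring
        rw [h6]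
        ring
      choose γ hγ using h5
      rw [Finset.prod_congr rfl fun j _ => hγ j, Finset.prod_mul_distrib, Finset.prod_const,
        Finset.card_univ, Fintype.card_fin, ← map_prod] at h4
      exact exists_eq_algebraMap_mul (hd l) h4
    · by_cases hl' : ∃ t, l ∈ K t
      · obtain ⟨t, hlt⟩ := hl'
        exact system_prop (r := sysRank r ρ) (z := z) (q := (Sum.inr t : Q ⊕ T))
          (hg t) (hbr t) (hgood t) (fun k => x (xIdx k)) (fun l' => x (wIdx l'.1)) (g2 t) v hv
          ⟨l, hlt⟩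
      · exact ⟨0, by rw [g3 l hlA hl hl', map_zero, zero_mul]⟩

end Pool.Agent.H79.Sys
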