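import Pool.Agent.H79.Sys.System

/-!
# Hyperbolic complete intersections as blocks: the equations
-/

open Polynomial Topology Filter

namespace Pool.Agent.H79.Sys

open Pool.Agent.H17 Pool.Agent.H17.EntFun Pool.Agent.H92.GGL Pool.Agent.H79.Log

variable {Q : Type} {κ : Type} [Fintype κ]

/-- The form attached to a form of a hyperbolic system: the first coordinates are the linear forms
of the block `q`, and the last coordinates are the additional coordinates with indices `a l`. -/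
noncomputable def sysForm {r : Q → ℕ} {n c : ℕ} (z : Entry r n → ℂ) (q : Q) (a : κ → Fin c)
    (g : MvPolynomial (Fin (r q + Fintype.card κ + 1)) ℂ) : MvPolynomial (Fin (n + c + 1)) ℂ :=
  MvPolynomial.aeval (fun j => Sum.elim
    (fun i : Fin (r q + 1) => ∑ k, MvPolynomial.C (z ⟨q, i, k⟩) * MvPolynomial.X (xIdx k))
    (fun l => MvPolynomial.X (wIdx (a l))) ((splitIdx (r q) κ).symm j)) g

lemma sysForm_isHomogeneous {r : Q → ℕ} {n c : ℕ} (z : Entry r n → ℂ) (q : Q) (a : κ → Fin c)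
    {g : MvPolynomial (Fin (r q + Fintype.card κ + 1)) ℂ} {d : ℕ} (hg : g.IsHomogeneous d) :
    (sysForm z q a g).IsHomogeneous d := by
  unfold sysForm
  have h1 := hg.aeval (fun j => Sum.elim
    (fun i : Fin (r q + 1) => ∑ k, MvPolynomial.C (z ⟨q, i, k⟩) * MvPolynomial.X (xIdx k))
    (fun l => MvPolynomial.X (wIdx (a l))) ((splitIdx (r q) κ).symm j) :
      _ → MvPolynomial (Fin (n + c + 1)) ℂ) (n := 1) ?_
  · rwa [one_mul] at h1
  · intro j
    rcases (splitIdx (r q) κ).symm j with i | l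
    · refine MvPolynomial.IsHomogeneous.sum _ _ _ fun k _ => ?_
      have h1 := MvPolynomial.isHomogeneous_C_mul_X_pow (z ⟨q, i, k⟩)
        (xIdx (n := n) (c := c) k) 1
      rwa [pow_one] at h1
    · exact MvPolynomial.isHomogeneous_X _ _

/-- The vector of entire functions attached to a system. -/
noncomputable def sysVec {r : Q → ℕ} {n : ℕ} (z : Entry r n → ℂ) (q : Q)
    (x : Fin (n + 1) → EntFun) (y : κ → EntFun) : Fin (r q + Fintype.card κ + 1) → EntFun :=
  fun j => Sum.elim (fun i : Fin (r q + 1) => (blockPoly z q x).coeff i) y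
    ((splitIdx (r q) κ).symm j)

lemma aeval_sysForm {r : Q → ℕ} {n c : ℕ} (z : Entry r n → ℂ) (q : Q) (a : κ → Fin c)
    (g : MvPolynomial (Fin (r q + Fintype.card κ + 1)) ℂ) (x : Fin (n + c + 1) → EntFun) :
    MvPolynomial.aeval x (sysForm z q a g) =
      MvPolynomial.aeval (sysVec z q (fun k => x (xIdx k)) fun l => x (wIdx (a l))) g := by
  unfold sysForm
  rw [MvPolynomial.comp_aeval_apply]
  congr 2
  funext j
  unfold sysVec
  rcases (splitIdx (r q) κ).symm j with i | l
  · simp only [Sum.elim_inl]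
    rw [map_sum]
    unfold blockPoly
    rw [polyOf_coeff]
    refine Finset.sum_congr rfl fun k _ => ?_
    rw [map_mul, MvPolynomial.aeval_C, MvPolynomial.aeval_X]
  · simp only [Sum.elim_inr]
    rw [MvPolynomial.aeval_X]

lemma sysVec_inl {r : Q → ℕ} {n : ℕ} (z : Entry r n → ℂ) (q : Q)
    (x : Fin (n + 1) → EntFun) (y : κ → EntFun) (i : Fin (r q + 1)) :
    sysVec z q x y (splitIdx (r q) κ (Sum.inl i)) = (blockPoly z q x).coeff i := by
  unfold sysVec
  rw [Equiv.symm_apply_apply, Sum.elim_inl]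

lemma sysVec_inr {r : Q → ℕ} {n : ℕ} (z : Entry r n → ℂ) (q : Q)
    (x : Fin (n + 1) → EntFun) (y : κ → EntFun) (l : κ) :
    sysVec z q x y (splitIdx (r q) κ (Sum.inr l)) = y l := by
  unfold sysVec
  rw [Equiv.symm_apply_apply, Sum.elim_inr]

/-- A curve satisfying the equations of a hyperbolic system is in special position. -/
lemma blockSpecial_of_system {r : Q → ℕ} {n : ℕ} {z : Entry r n → ℂ} {q : Q} {d : κ → ℕ}
    {g : κ → MvPolynomial (Fin (r q + Fintype.card κ + 1)) ℂ}
    (hg : ∀ l, (g l).IsHomogeneous (d l)) (hbr : BrodyHyperbolic (zeroLocus g))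
    (x : Fin (n + 1) → EntFun) (y : κ → EntFun)
    (h : ∀ l, MvPolynomial.aeval (sysVec z q x y) (g l) = 0) : BlockSpecial z q x := by
  left
  have hc := fun w₁ w₂ i k => cross_of_hyperbolic hg hbr h w₁ w₂
    (splitIdx (r q) κ (Sum.inl i)) (splitIdx (r q) κ (Sum.inl k))
  simp only [sysVec_inl] at hc
  by_cases h0 : ∀ w, ∀ i : Fin (r q + 1), (((blockPoly z q x).coeff i : EntFun) : ℂ → ℂ) w = 0
  · refine ⟨0, fun w => ⟨0, fun i => ?_⟩⟩
    unfold valAt
    rw [← blockPoly_coeff_apply, h0 w i, zero_mul]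
  · push Not at h0
    obtain ⟨w₀, k, hk⟩ := h0
    refine ⟨fun i => (((blockPoly z q x).coeff i : EntFun) : ℂ → ℂ) w₀, fun w =>
      ⟨(((blockPoly z q x).coeff k : EntFun) : ℂ → ℂ) w /
        (((blockPoly z q x).coeff k : EntFun) : ℂ → ℂ) w₀, fun i => ?_⟩⟩
    unfold valAt
    rw [← blockPoly_coeff_apply, div_mul_eq_mul_div, eq_div_iff hk]
    linear_combination hc w w₀ i k

/-- The additional coordinates are constant if the base coordinates are constant. -/
lemma system_prop {r : Q → ℕ} {n : ℕ} {z : Entry r n → ℂ} {q : Q} {d : κ → ℕ}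
    {g : κ → MvPolynomial (Fin (r q + Fintype.card κ + 1)) ℂ}
    (hg : ∀ l, (g l).IsHomogeneous (d l)) (hbr : BrodyHyperbolic (zeroLocus g))
    (hgood : ∀ y : κ → ℂ, (∀ l, MvPolynomial.eval (tailPt (r q) y) (g l) = 0) → y = 0)
    (x : Fin (n + 1) → EntFun) (y : κ → EntFun)
    (h : ∀ l, MvPolynomial.aeval (sysVec z q x y) (g l) = 0)
    (v : EntFun) (hx : ∀ k, ∃ a : ℂ, x k = algebraMap ℂ EntFun a * v) (l : κ) :
    ∃ b : ℂ, y l = algebraMap ℂ EntFun b * v := by
  classical
  have hA : ∀ i : Fin (r q + 1), ∃ α : ℂ, (blockPoly z q x).coeff i =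
      algebraMap ℂ EntFun α * v := by
    intro i
    choose a ha using hx
    refine ⟨∑ k, z ⟨q, i, k⟩ * a k, ?_⟩
    unfold blockPoly
    rw [polyOf_coeff, map_sum, Finset.sum_mul]
    refine Finset.sum_congr rfl fun k _ => ?_
    rw [map_mul]
    conv_lhs => rw [ha k]
    ring
  choose α hα using hA
  by_cases h0 : ∀ i : Fin (r q + 1), (blockPoly z q x).coeff i = 0
  · -- all linear forms vanish
    refine ⟨0, ?_⟩
    rw [map_zero, zero_mul]
    ext w
    have h1 : (fun j => (sysVec z q x y j : ℂ → ℂ) w) =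
        tailPt (r q) fun l => (y l : ℂ → ℂ) w := by
      funext j
      unfold sysVec tailPt
      rcases (splitIdx (r q) κ).symm j with i | l'
      · simp only [Sum.elim_inl]
        rw [h0 i]
        rfl
      · rfl
    have h2 := hgood (fun l => (y l : ℂ → ℂ) w) fun l' => by
      rw [← h1, ← eval_apply_eq, h l']
      rfl
    exact congrFun h2 l
  · push Not at h0
    obtain ⟨i, hi⟩ := h0
    rw [hα i] at hi
    have hv : v ≠ 0 := right_ne_zero_of_mul hi
    have hαi : α i ≠ 0 := by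
      intro h1
      rw [h1, map_zero] at hi
      exact left_ne_zero_of_mul hi rfl
    obtain ⟨w₀, hw₀⟩ := (ne_zero_iff v).mp hv
    refine ⟨(y l : ℂ → ℂ) w₀ / (v : ℂ → ℂ) w₀, ?_⟩
    ext w
    have h1 := cross_of_hyperbolic hg hbr h w w₀
      (splitIdx (r q) κ (Sum.inr l)) (splitIdx (r q) κ (Sum.inl i))
    rw [sysVec_inl, sysVec_inr, hα i] at h1
    have h2 : ∀ w, ((algebraMap ℂ EntFun (α i) * v : EntFun) : ℂ → ℂ) w =
      α i * (v : ℂ → ℂ) w := fun w => rfl
    rw [h2, h2] at h1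
    have h3 : ((algebraMap ℂ EntFun ((y l : ℂ → ℂ) w₀ / (v : ℂ → ℂ) w₀) * v : EntFun) : ℂ → ℂ) w =
      (y l : ℂ → ℂ) w₀ / (v : ℂ → ℂ) w₀ * (v : ℂ → ℂ) w := rfl
    rw [h3, div_mul_eq_mul_div, eq_div_iff hw₀]
    refine mul_left_cancel₀ hαi ?_
    linear_combination h1

end Pool.Agent.H79.Sys
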