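import Pool.Agent.H79.Sys.CertSys
import Pool.Agent.H62.Log.OpenLog
import Pool.Agent.H62.Log.StratCert

/-!
# Hyperbolic strata from blocks, hyperbolic systems and equations assigned to the boundary
-/

open Polynomial Topology Filter

namespace Pool.Agent.H79.Sys

open Pool.Agent.H17 Pool.Agent.H17.EntFun Pool.Agent.H92.GGL Pool.Agent.H79.Log Pool.Agent.H62.Log

/-- **Hyperbolic strata from blocks and systems and from equations assigned to boundary
components.** -/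
theorem exists_strat_systems {Q T : Type} [Fintype Q] [DecidableEq Q] [Fintype T] [DecidableEq T]
    (n c m : ℕ) (d : Fin c → ℕ)
    (hd : ∀ l, 1 ≤ d l) (δ : Fin m → ℕ) (hδ : ∀ j, 1 ≤ δ j) (r : Q → ℕ) (hr : ∀ q, r q ≤ 2)
    (B : Q → Finset (Fin c)) (hB : ∀ q q', q ≠ q' → Disjoint (B q) (B q'))
    (K : T → Finset (Fin c)) (ρ : T → ℕ) (hKK : ∀ t t', t ≠ t' → Disjoint (K t) (K t'))
    (hBK : ∀ q t, Disjoint (B q) (K t)) (L : Fin m → Finset (Fin c))
    (hL : ∀ j j', j ≠ j' → Disjoint (L j) (L j')) (hBL : ∀ q j, Disjoint (B q) (L j))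
    (hKL : ∀ t j, Disjoint (K t) (L j))
    (hsum : ∀ S : Finset (Fin m), 2 * n ≤ ∑ q, r q + ∑ t, ρ t + 2 * S.card +
      (∑ j ∈ Sᶜ, (δ j + ∑ l ∈ L j, (d l - 1)) - 2) + 1)
    (hnum : ∀ q, ∀ e ρ : ℕ, 0 < e → 0 < ρ → ρ + e ≤ r q + 1 →
      2 * ρ + ∑ l ∈ B q, min (d l) (e * ρ) < ∑ l ∈ B q, d l)
    (hK : ∀ t, HasHyperbolicSystem (ρ t) fun l : {l // l ∈ K t} => d l.1) :
    ∃ (G : Fin c → MvPolynomial (Fin (n + c + 1)) ℂ) (H : Fin m → MvPolynomial (Fin (n + c + 1)) ℂ),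
      (∀ l, (G l).IsHomogeneous (d l)) ∧ (∀ j, (H j).IsHomogeneous (δ j)) ∧ StratHyp G H := by
  classical
  obtain ⟨z, hz⟩ := exists_algebraicIndependent (Entry₂ (sysRank r ρ) n (LIdx d δ))
  have hA : ∀ l, l ∉ Finset.univ.biUnion L ↔ ∀ j, l ∉ L j := by
    intro l
    rw [Finset.mem_biUnion]
    push Not
    exact ⟨fun h j => h j (Finset.mem_univ j), fun h j _ => h j⟩
  obtain ⟨Gc, hGc, hcert⟩ := cert_of_systems n c d hd r hr B hB K ρ hKK hBK
    (Finset.univ.biUnion L)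
    (fun q => (Finset.disjoint_biUnion_right _ _ _).mpr fun j _ => hBL q j)
    (fun t => (Finset.disjoint_biUnion_right _ _ _).mpr fun j _ => hKL t j) hnum hK
    (fun e => z (Sum.inl e))
  refine stratHyp_of_small hd hδ hz hL hGc ?_ ?_
  · intro x hx
    obtain ⟨h1, h2⟩ := hcert x fun l hl => hx l ((hA l).mp hl)
    exact ⟨h1, fun v hv l hl => h2 v hv l ((hA l).mpr hl)⟩
  · intro S
    rw [Fintype.sum_sum_type]
    simp only [Sum.elim_inl, Sum.elim_inr]
    exact hsum S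

/-- **Open sets of hyperbolic pairs**, with hyperbolic systems as blocks. -/
theorem exists_log_gluing_systems (n c m : ℕ) (d : Fin c → ℕ) (hd : ∀ l, 1 ≤ d l) (δ : Fin m → ℕ)
    (hδ : ∀ j, 1 ≤ δ j) (a b s : ℕ)
    (I : Fin a → Finset (Fin c)) (J : Fin b → Finset (Fin c)) (K : Fin s → Finset (Fin c))
    (r : Fin s → ℕ) (L : Fin m → Finset (Fin c))
    (hI : ∀ q, 3 ≤ ∑ l ∈ I q, (d l - 1)) (hJ : ∀ q, 5 ≤ ∑ l ∈ J q, (d l - 2))
    (hK : ∀ t, HasHyperbolicSystem (r t) fun l : {l // l ∈ K t} => d l.1)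
    (hII : ∀ q q', q ≠ q' → Disjoint (I q) (I q')) (hJJ : ∀ q q', q ≠ q' → Disjoint (J q) (J q'))
    (hKK : ∀ t t', t ≠ t' → Disjoint (K t) (K t'))
    (hLL : ∀ j j', j ≠ j' → Disjoint (L j) (L j'))
    (hIJ : ∀ q q', Disjoint (I q) (J q')) (hIK : ∀ q t, Disjoint (I q) (K t))
    (hJK : ∀ q t, Disjoint (J q) (K t)) (hIL : ∀ q j, Disjoint (I q) (L j))
    (hJL : ∀ q j, Disjoint (J q) (L j)) (hKL : ∀ t j, Disjoint (K t) (L j))
    (hn : ∀ S : Finset (Fin m), 2 * n ≤ a + 2 * b + ∑ t, r t + 2 * S.card +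
      (∑ j ∈ Sᶜ, (δ j + ∑ l ∈ L j, (d l - 1)) - 2) + 1) :
    ∃ (G₀ : Fin c → MvPolynomial (Fin (n + c + 1)) ℂ)
      (H₀ : Fin m → MvPolynomial (Fin (n + c + 1)) ℂ), (∀ l, (G₀ l).IsHomogeneous (d l)) ∧
      (∀ j, (H₀ j).IsHomogeneous (δ j)) ∧
      ∃ ε > 0, ∀ (G : Fin c → MvPolynomial (Fin (n + c + 1)) ℂ)
        (H : Fin m → MvPolynomial (Fin (n + c + 1)) ℂ),
        (∀ l, (G l).IsHomogeneous (d l)) → (∀ j, (H j).IsHomogeneous (δ j)) →
        (∀ l i, ‖(G l).coeff i - (G₀ l).coeff i‖ < ε) →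
        (∀ j i, ‖(H j).coeff i - (H₀ j).coeff i‖ < ε) →
        (openPart G H).Nonempty ∧ SmoothPair G H ∧
          ∀ S : Set (Fin m), BrodyHyperbolic (stratum G H S) ∧ PicardHyperbolic (stratum G H S) := by
  apply open_of_strat hd hδ
  refine exists_strat_systems (Q := Fin a ⊕ Fin b) n c m d hd δ hδ
    (Sum.elim (fun _ => 1) fun _ => 2)
    ?_ (Sum.elim I J) ?_ K r hKK ?_ L hLL ?_ hKL ?_ ?_ hK
  · rintro (q | q)
    · exact one_le_two
    · exact le_rfl
  · rintro (q | q) (q' | q') hne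
    · exact hII q q' fun h => hne (by rw [h])
    · exact hIJ q q'
    · exact (hIJ q' q).symm
    · exact hJJ q q' fun h => hne (by rw [h])
  · rintro (q | q) t
    · exact hIK q t
    · exact hJK q t
  · rintro (q | q) j
    · exact hIL q j
    · exact hJL q j
  · intro S
    rw [Fintype.sum_sum_type]
    simp only [Sum.elim_inl, Sum.elim_inr, Finset.sum_const, Finset.card_univ, Fintype.card_fin,
      smul_eq_mul, mul_one]
    have h1 := hn S
    omega
  · rintro (q | q) e ρ he hρ heρ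
    · -- curves
      simp only [Sum.elim_inl] at heρ ⊢
      have he1 : e = 1 := by omega
      have hρ1 : ρ = 1 := by omega
      subst he1 hρ1
      have h1 : ∑ l ∈ I q, (d l - 1) + ∑ l ∈ I q, min (d l) (1 * 1) = ∑ l ∈ I q, d l := by
        rw [← Finset.sum_add_distrib]
        refine Finset.sum_congr rfl fun l _ => ?_
        have := hd l
        omega
      have h2 := hI q
      omega
    · -- surfaces
      simp only [Sum.elim_inr] at heρ ⊢
      have h1 : ∑ l ∈ J q, (d l - 2) + ∑ l ∈ J q, min (d l) 2 = ∑ l ∈ J q, d l := by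
        rw [← Finset.sum_add_distrib]
        exact Finset.sum_congr rfl fun l _ => by omega
      have h2 := hJ q
      have h3 : ∑ l ∈ J q, min (d l) (e * ρ) ≤ ∑ l ∈ J q, min (d l) 2 := by
        refine Finset.sum_le_sum fun l _ => min_le_min_left _ ?_
        have he2 : e = 1 ∨ e = 2 := by omega
        rcases he2 with rfl | rfl
        · omega
        · omega
      omega

end Pool.Agent.H79.Sys
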