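import Pool.Agent.H62.Chain.NoCycle

/-!
# Roles from disjoint sets of indices
-/

namespace Pool.Agent.H79.Sys

open Pool.Agent.H17 Pool.Agent.H92.GGL Pool.Agent.H79.Log Pool.Agent.H62.Log Pool.Agent.H62.Chain

/-- Change of the index types of a hyperbolic system. -/
lemma system_transport {r : ℕ} {κ κ' ι ι' : Type} [Fintype κ] [Fintype κ'] (e : κ' ≃ κ)
    (e' : ι' ≃ ι) {d : κ → ℕ} {δ : ι → ℕ}
    (h : ∃ (g : κ → MvPolynomial (Fin (r + Fintype.card κ + 1)) ℂ)
      (h : ι → MvPolynomial (Fin (r + Fintype.card κ + 1)) ℂ),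
      (∀ l, (g l).IsHomogeneous (d l)) ∧ (∀ j, (h j).IsHomogeneous (δ j)) ∧
        ∀ S, BrodyHyperbolic (stratum g h S)) :
    ∃ (g : κ' → MvPolynomial (Fin (r + Fintype.card κ' + 1)) ℂ)
      (h : ι' → MvPolynomial (Fin (r + Fintype.card κ' + 1)) ℂ),
      (∀ l, (g l).IsHomogeneous (d (e l))) ∧ (∀ j, (h j).IsHomogeneous (δ (e' j))) ∧
        ∀ S, BrodyHyperbolic (stratum g h S) := by
  rw [Fintype.card_congr e]
  obtain ⟨g, h, hg, hh, hb⟩ := h
  refine ⟨fun l => g (e l), fun j => h (e' j), fun l => hg _, fun j => hh _, fun S =>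
    brody_stratum ?_ S⟩
  intro f hf hfX hfH
  refine stratHyp_of_brody hb f hf (fun z l => ?_) (fun j => ?_)
  · have h2 := hfX z (e.symm l)
    beta_reduce at h2
    rwa [e.apply_symm_apply] at h2
  · have h2 := hfH (e'.symm j)
    beta_reduce at h2
    rwa [e'.apply_symm_apply] at h2

variable {c m a b s : ℕ}

open Classical in
/-- The role of an equation. -/
noncomputable def mkRole (I : Fin a → Finset (Fin c)) (J : Fin b → Finset (Fin c))
    (K : Fin s → Finset (Fin c)) (M : Fin s → Finset (Fin m)) (L : Fin m → Finset (Fin c))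
    (l : Fin c) : Role a b s m :=
  if h : ∃ q, l ∈ I q then .curve h.choose
  else if h : ∃ q, l ∈ J q then .surface h.choose
  else if h : ∃ q, l ∈ K q then .system h.choose
  else if h : ∃ j, l ∈ L j ∧ ∀ q, j ∉ M q then .boundary h.choose
  else .free

open Classical in
/-- The role of a boundary form. -/
noncomputable def mkBrole (M : Fin s → Finset (Fin m)) (j : Fin m) : Option (Fin s) :=
  if h : ∃ q, j ∈ M q then some h.choose else none

/-- All sets of equations. -/
abbrev allSets (I : Fin a → Finset (Fin c)) (J : Fin b → Finset (Fin c))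
    (K : Fin s → Finset (Fin c)) (L : Fin m → Finset (Fin c)) :
    (Fin a ⊕ Fin b) ⊕ (Fin s ⊕ Fin m) → Finset (Fin c) :=
  Sum.elim (Sum.elim I J) (Sum.elim K L)

variable {I : Fin a → Finset (Fin c)} {J : Fin b → Finset (Fin c)}
    {K : Fin s → Finset (Fin c)} {M : Fin s → Finset (Fin m)} {L : Fin m → Finset (Fin c)}

lemma mem_unique (hD : Pairwise fun q q' => Disjoint (allSets I J K L q) (allSets I J K L q'))
    {l : Fin c} {q q'} (h : l ∈ allSets I J K L q) (h' : l ∈ allSets I J K L q') : q = q' := by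
  by_contra hne
  exact Finset.disjoint_left.mp (hD hne) h h'

lemma mkRole_ne_cycle (l : Fin c) : mkRole I J K M L l ≠ .cycle := by
  unfold mkRole
  split_ifs <;> simp

lemma mkRole_curve (hD : Pairwise fun q q' => Disjoint (allSets I J K L q) (allSets I J K L q'))
    {l : Fin c} {q : Fin a} : mkRole I J K M L l = .curve q ↔ l ∈ I q := by
  unfold mkRole
  constructor
  · intro h
    split_ifs at h with h1
    · rw [← Role.curve.inj h]
      exact h1.choose_spec
  · intro h
    have h1 : ∃ q, l ∈ I q := ⟨q, h⟩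
    rw [dif_pos h1]
    congr 1
    have h2 := mem_unique (K := K) (J := J) (L := L) hD (q := Sum.inl (Sum.inl h1.choose))
      (q' := Sum.inl (Sum.inl q)) h1.choose_spec h
    simpa using h2

lemma mkRole_surface (hD : Pairwise fun q q' => Disjoint (allSets I J K L q) (allSets I J K L q'))
    {l : Fin c} {q : Fin b} : mkRole I J K M L l = .surface q ↔ l ∈ J q := by
  unfold mkRole
  constructor
  · intro h
    split_ifs at h with h0 h1
    · rw [← Role.surface.inj h]
      exact h1.choose_spec
  · intro h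
    have h0 : ¬ ∃ q, l ∈ I q := by
      rintro ⟨q', h'⟩
      have h2 := mem_unique (K := K) (J := J) (L := L) hD (q := Sum.inl (Sum.inl q'))
        (q' := Sum.inl (Sum.inr q)) h' h
      simp at h2
    have h1 : ∃ q, l ∈ J q := ⟨q, h⟩
    rw [dif_neg h0, dif_pos h1]
    congr 1
    have h2 := mem_unique (K := K) (I := I) (L := L) hD (q := Sum.inl (Sum.inr h1.choose))
      (q' := Sum.inl (Sum.inr q)) h1.choose_spec h
    simpa using h2

lemma mkRole_system (hD : Pairwise fun q q' => Disjoint (allSets I J K L q) (allSets I J K L q'))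
    {l : Fin c} {q : Fin s} : mkRole I J K M L l = .system q ↔ l ∈ K q := by
  unfold mkRole
  constructor
  · intro h
    split_ifs at h with h0 h1 h2
    · rw [← Role.system.inj h]
      exact h2.choose_spec
  · intro h
    have h0 : ¬ ∃ q, l ∈ I q := by
      rintro ⟨q', h'⟩
      have h2 := mem_unique (K := K) (J := J) (L := L) hD (q := Sum.inl (Sum.inl q'))
        (q' := Sum.inr (Sum.inl q)) h' h
      simp at h2
    have h1 : ¬ ∃ q, l ∈ J q := by
      rintro ⟨q', h'⟩
      have h2 := mem_unique (K := K) (I := I) (L := L) hD (q := Sum.inl (Sum.inr q'))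
        (q' := Sum.inr (Sum.inl q)) h' h
      simp at h2
    have h3 : ∃ q, l ∈ K q := ⟨q, h⟩
    rw [dif_neg h0, dif_neg h1, dif_pos h3]
    congr 1
    have h2 := mem_unique (I := I) (J := J) (L := L) hD (q := Sum.inr (Sum.inl h3.choose))
      (q' := Sum.inr (Sum.inl q)) h3.choose_spec h
    simpa using h2

lemma mkRole_boundary (hD : Pairwise fun q q' => Disjoint (allSets I J K L q) (allSets I J K L q'))
    {l : Fin c} {j : Fin m} :
    mkRole I J K M L l = .boundary j ↔ l ∈ L j ∧ ∀ q, j ∉ M q := by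
  unfold mkRole
  constructor
  · intro h
    split_ifs at h with h0 h1 h2 h3
    · rw [← Role.boundary.inj h]
      exact h3.choose_spec
  · rintro ⟨h, hM⟩
    have h0 : ¬ ∃ q, l ∈ I q := by
      rintro ⟨q', h'⟩
      have h2 := mem_unique (K := K) (J := J) (L := L) hD (q := Sum.inl (Sum.inl q'))
        (q' := Sum.inr (Sum.inr j)) h' h
      simp at h2
    have h1 : ¬ ∃ q, l ∈ J q := by
      rintro ⟨q', h'⟩
      have h2 := mem_unique (K := K) (I := I) (L := L) hD (q := Sum.inl (Sum.inr q'))
        (q' := Sum.inr (Sum.inr j)) h' h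
      simp at h2
    have h2 : ¬ ∃ q, l ∈ K q := by
      rintro ⟨q', h'⟩
      have h2 := mem_unique (J := J) (I := I) (L := L) hD (q := Sum.inr (Sum.inl q'))
        (q' := Sum.inr (Sum.inr j)) h' h
      simp at h2
    have h3 : ∃ j, l ∈ L j ∧ ∀ q, j ∉ M q := ⟨j, h, hM⟩
    rw [dif_neg h0, dif_neg h1, dif_neg h2, dif_pos h3]
    congr 1
    have h4 := mem_unique (I := I) (J := J) (K := K) hD (q := Sum.inr (Sum.inr h3.choose))
      (q' := Sum.inr (Sum.inr j)) h3.choose_spec.1 h
    simpa using h4

lemma mkBrole_none {j : Fin m} : mkBrole M j = none ↔ ∀ q, j ∉ M q := by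
  unfold mkBrole
  split_ifs with h
  · simp only [false_iff]
    push Not
    exact h
  · simp only [true_iff]
    push Not at h
    exact h

lemma mkBrole_some (hM : Pairwise fun q q' => Disjoint (M q) (M q')) {j : Fin m} {q : Fin s} :
    mkBrole M j = some q ↔ j ∈ M q := by
  unfold mkBrole
  constructor
  · intro h
    split_ifs at h with h0
    · rw [← Option.some.inj h]
      exact h0.choose_spec
  · intro h
    have h1 : ∃ q, j ∈ M q := ⟨q, h⟩
    rw [dif_pos h1]
    congr 1
    by_contra hne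
    exact Finset.disjoint_left.mp (hM hne) h1.choose_spec h

/-- **Gluing of disjoint blocks.** -/
theorem exists_blocks {n : ℕ} {d : Fin c → ℕ} {δ : Fin m → ℕ} (hd : ∀ l, 1 ≤ d l)
    (hδ : ∀ j, 1 ≤ δ j) (r : Fin s → ℕ)
    (hD : Pairwise fun q q' => Disjoint (allSets I J K L q) (allSets I J K L q'))
    (hM : Pairwise fun q q' => Disjoint (M q) (M q'))
    (hI : ∀ q, 3 ≤ ∑ l ∈ I q, (d l - 1)) (hJ : ∀ q, 5 ≤ ∑ l ∈ J q, (d l - 2))
    (hK : ∀ q, ∃ (g : K q → MvPolynomial (Fin (r q + Fintype.card (K q) + 1)) ℂ)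
      (h : M q → MvPolynomial (Fin (r q + Fintype.card (K q) + 1)) ℂ),
      (∀ l, (g l).IsHomogeneous (d l)) ∧ (∀ j, (h j).IsHomogeneous (δ j)) ∧
        ∀ S, BrodyHyperbolic (stratum g h S))
    (hnum : (∃ q, n ≤ r q) ∨ ∀ S : Finset (Fin m), (∀ q, Disjoint (M q) S) →
      2 * n ≤ a + 2 * b + ∑ q, r q + 2 * S.card +
        (∑ j with j ∉ S ∧ ∀ q, j ∉ M q, (δ j + ∑ l ∈ L j, (d l - 1)) - 2) + 1) :
    OpenHyperbolic n d δ := by
  classical
  refine exists_gluing (mkRole I J K M L) (mkBrole M) (fun l j hl => ?_) r hd hδ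
    (fun l hl => absurd hl (mkRole_ne_cycle l)) (fun q => ?_) (fun q => ?_) (fun q => ?_)
    (numCond_of_one mkRole_ne_cycle ?_)
  · exact mkBrole_none.mpr ((mkRole_boundary hD).mp hl).2
  · rw [Finset.filter_congr fun l _ => mkRole_curve hD]
    simpa using hI q
  · rw [Finset.filter_congr fun l _ => mkRole_surface hD]
    simpa using hJ q
  · exact system_transport (Equiv.subtypeEquivRight fun l => mkRole_system hD)
      (Equiv.subtypeEquivRight fun j => mkBrole_some hM) (hK q)
  · rcases hnum with h | h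
    · exact Or.inl h
    · right
      intro S hS
      have h1 := h S fun q => Finset.disjoint_right.mpr fun j hj => mkBrole_none.mp (hS j hj) q
      have h2 : unitCount d δ (mkRole I J K M L) (mkBrole M) S =
          ∑ j with j ∉ S ∧ ∀ q, j ∉ M q, (δ j + ∑ l ∈ L j, (d l - 1)) := by
        unfold unitCount
        refine Finset.sum_congr ?_ fun j hj => ?_
        · ext j
          simp only [Finset.mem_filter, Finset.mem_univ, true_and, mkBrole_none]
          tauto
        · have h3 := (Finset.mem_filter.mp hj).2.2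
          congr 1
          refine Finset.sum_congr ?_ fun l _ => rfl
          ext l
          simp only [Finset.mem_filter, Finset.mem_univ, true_and]
          rw [mkRole_boundary hD]
          exact ⟨fun h => h.1, fun h => ⟨h, h3⟩⟩
      rw [h2]
      exact h1

end Pool.Agent.H79.Sys
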