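import Pool.Agent.H17.OpenHyperbolic
import Pool.Agent.H79.Log.SmoothPair
import Pool.Agent.H79.Log.StratBlocks

/-!
# Hyperbolic complete intersections as blocks: good systems

A system of `s` forms in `r + s + 1` variables with a Brody hyperbolic zero locus can be replaced
by one whose zero locus does not meet a coordinate subspace of dimension `s - 1`.
-/

open Topology Filter

namespace Pool.Agent.H79.Sys

open Pool.Agent.H17 Pool.Agent.H17.EntFun Pool.Agent.H92.GGL Pool.Agent.H79.Log

/-- Some system of forms of the degrees `d l`, `l : κ`, in `ℙ^(r + |κ|)` has a Brody hyperbolic zero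
locus. -/
def HasHyperbolicSystem (r : ℕ) {κ : Type} [Fintype κ] (d : κ → ℕ) : Prop :=
  ∃ g : κ → MvPolynomial (Fin (r + Fintype.card κ + 1)) ℂ, (∀ l, (g l).IsHomogeneous (d l)) ∧
    BrodyHyperbolic (zeroLocus g)

/-- At least `N + 1` forms in `N + 1` variables which satisfy the Jacobian criterion have no common
zeros. -/
lemma eq_zero_of_smoothFam {N : ℕ} {κ : Type} [Fintype κ] {d : κ → ℕ}
    (hcard : N + 1 ≤ Fintype.card κ) {F : κ → MvPolynomial (Fin (N + 1)) ℂ}
    (hF : ∀ l, (F l).IsHomogeneous (d l)) (h : SmoothFam F) (x : Fin (N + 1) → ℂ)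
    (hx : ∀ l, MvPolynomial.eval x (F l) = 0) : x = 0 := by
  classical
  by_contra hx0
  -- the map to the gradients
  let Φ : (κ → ℂ) →ₗ[ℂ] (Fin (N + 1) → ℂ) :=
    { toFun := fun α j => ∑ l, α l * MvPolynomial.eval x (MvPolynomial.pderiv j (F l))
      map_add' := fun α β => by
        funext j
        rw [Pi.add_apply, ← Finset.sum_add_distrib]
        exact Finset.sum_congr rfl fun l _ => by rw [Pi.add_apply]; ring
      map_smul' := fun a α => by
        funext j
        rw [RingHom.id_apply, Pi.smul_apply, smul_eq_mul, Finset.mul_sum]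
        exact Finset.sum_congr rfl fun l _ => by rw [Pi.smul_apply, smul_eq_mul]; ring }
  have hinj : Function.Injective Φ := by
    rw [← LinearMap.ker_eq_bot, LinearMap.ker_eq_bot']
    intro α hα
    exact h x hx0 hx α fun j => congrFun hα j
  have hsurj : Function.Surjective Φ := by
    have h1 := LinearMap.finrank_le_finrank_of_injective hinj
    rw [Module.finrank_fintype_fun_eq_card, Module.finrank_fin_fun] at h1
    rw [← LinearMap.injective_iff_surjective_of_finrank_eq_finrank]
    · exact hinj
    · rw [Module.finrank_fintype_fun_eq_card, Module.finrank_fin_fun]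
      omega
  obtain ⟨j₀, hj₀⟩ : ∃ j, x j ≠ 0 := by
    by_contra hcon
    push Not at hcon
    exact hx0 (funext hcon)
  obtain ⟨α, hα⟩ := hsurj (Pi.single j₀ 1)
  have h1 : ∀ l, ∑ j, x j * MvPolynomial.eval x (MvPolynomial.pderiv j (F l)) = 0 := by
    intro l
    have h2 := congrArg (MvPolynomial.eval x) (hF l).sum_X_mul_pderiv
    rw [map_sum, map_nsmul, hx l, smul_zero] at h2
    rw [← h2]
    exact Finset.sum_congr rfl fun j _ => by rw [map_mul, MvPolynomial.eval_X]
  have h2 : ∑ j, x j * Φ α j = 0 := by
    have h3 : ∀ j, x j * Φ α j = ∑ l, α l *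
        (x j * MvPolynomial.eval x (MvPolynomial.pderiv j (F l))) := by
      intro j
      show x j * ∑ l, α l * MvPolynomial.eval x (MvPolynomial.pderiv j (F l)) = _
      rw [Finset.mul_sum]
      exact Finset.sum_congr rfl fun l _ => by ring
    rw [Finset.sum_congr rfl fun j _ => h3 j, Finset.sum_comm]
    refine Finset.sum_eq_zero fun l _ => ?_
    rw [← Finset.mul_sum, h1, mul_zero]
  rw [hα] at h2
  apply hj₀
  have h3 : ∑ j, x j * (Pi.single j₀ 1 : Fin (N + 1) → ℂ) j = x j₀ := by
    rw [Finset.sum_eq_single j₀]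
    · rw [Pi.single_eq_same, mul_one]
    · intro j _ hj
      rw [Pi.single_eq_of_ne hj, mul_zero]
    · intro hj
      exact absurd (Finset.mem_univ _) hj
  rw [← h3]
  exact h2

/-- The splitting of the coordinates. -/
noncomputable def splitIdx (r : ℕ) (κ : Type) [Fintype κ] :
    Fin (r + 1) ⊕ κ ≃ Fin (r + Fintype.card κ + 1) := by
  classical
  exact (Equiv.sumCongr (Equiv.refl _) (Fintype.equivFin κ)).trans
    (finSumFinEquiv.trans (finCongr (by omega)))

/-- The point with first coordinates `0` and last coordinates `y`. -/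
noncomputable def tailPt (r : ℕ) {κ : Type} [Fintype κ] (y : κ → ℂ) :
    Fin (r + Fintype.card κ + 1) → ℂ :=
  fun j => Sum.elim (fun _ => 0) y ((splitIdx r κ).symm j)

/-- **Good systems.** -/
theorem exists_good_system {r : ℕ} {κ : Type} [Fintype κ] {d : κ → ℕ} (hd : ∀ l, 1 ≤ d l)
    (h : HasHyperbolicSystem r d) :
    ∃ g : κ → MvPolynomial (Fin (r + Fintype.card κ + 1)) ℂ, (∀ l, (g l).IsHomogeneous (d l)) ∧
      BrodyHyperbolic (zeroLocus g) ∧
      ∀ y : κ → ℂ, (∀ l, MvPolynomial.eval (tailPt r y) (g l) = 0) → y = 0 := by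
  classical
  obtain ⟨g, hg, hbr⟩ := h
  rcases isEmpty_or_nonempty κ with hκ | hκ
  · exact ⟨g, hg, hbr, fun y _ => Subsingleton.elim _ _⟩
  obtain ⟨s, hs⟩ : ∃ s, Fintype.card κ = s + 1 :=
    ⟨Fintype.card κ - 1, by have := Fintype.card_pos (α := κ); omega⟩
  have e : κ ≃ Fin (s + 1) := Fintype.equivFinOfCardEq hs
  obtain ⟨ε, hε, hopen⟩ := brody_open hg hbr
  -- the restricted forms
  set res : Fin (r + Fintype.card κ + 1) → MvPolynomial (Fin (s + 1)) ℂ := fun j =>
    Sum.elim (fun _ => 0) (fun l => MvPolynomial.X (e l)) ((splitIdx r κ).symm j) with hres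
  have hresh : ∀ j, (res j).IsHomogeneous 1 := by
    intro j
    simp only [hres]
    rcases (splitIdx r κ).symm j with i | l
    · exact MvPolynomial.isHomogeneous_zero _ _ _
    · exact MvPolynomial.isHomogeneous_X _ _
  set F₀ : κ → MvPolynomial (Fin (s + 1)) ℂ := fun l => MvPolynomial.aeval res (g l) with hF₀
  have hF₀h : ∀ l, (F₀ l).IsHomogeneous (d l) := by
    intro l
    have h1 := (hg l).aeval res (n := 1) hresh
    rwa [one_mul] at h1
  obtain ⟨F, hF, hnear, hsm⟩ := exists_smoothFam_near hd hF₀h hε
  have hF0 := eq_zero_of_smoothFam (by omega) hF hsm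
  -- the embedding of the variables
  set ι : Fin (s + 1) → Fin (r + Fintype.card κ + 1) := fun i => splitIdx r κ (Sum.inr (e.symm i))
    with hι
  have hιinj : Function.Injective ι := by
    intro i j hij
    have h1 := (splitIdx r κ).injective hij
    exact e.symm.injective (Sum.inr.inj h1)
  refine ⟨fun l => g l + MvPolynomial.rename ι (F l - F₀ l), fun l => ?_, ?_, ?_⟩
  · exact (hg l).add (((hF l).sub (hF₀h l)).rename_isHomogeneous)
  · refine hopen _ (fun l => (hg l).add (((hF l).sub (hF₀h l)).rename_isHomogeneous))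
      fun l μ => ?_
    rw [MvPolynomial.coeff_add, add_sub_cancel_left]
    by_cases hμ : ∃ u : Fin (s + 1) →₀ ℕ, u.mapDomain ι = μ
    · obtain ⟨u, rfl⟩ := hμ
      rw [MvPolynomial.coeff_rename_mapDomain _ hιinj, MvPolynomial.coeff_sub]
      exact hnear l u
    · rw [MvPolynomial.coeff_rename_eq_zero _ _ _ (fun u hu => absurd ⟨u, hu⟩ hμ), norm_zero]
      exact hε
  · intro y hy
    have h1 : ∀ l, MvPolynomial.eval (fun i => y (e.symm i)) (F l) = 0 := by
      intro l
      have h2 := hy l
      rw [map_add, MvPolynomial.eval_rename, map_sub] at h2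
      have h3 : tailPt r y ∘ ι = fun i => y (e.symm i) := by
        funext i
        simp only [Function.comp_apply, tailPt, hι, Equiv.symm_apply_apply, Sum.elim_inr]
      have h4 : MvPolynomial.eval (fun i => y (e.symm i)) (F₀ l) =
          MvPolynomial.eval (tailPt r y) (g l) := by
        simp only [hF₀]
        rw [MvPolynomial.aeval_def, MvPolynomial.eval₂_eq_eval_map]
        have h5 : MvPolynomial.eval (fun i => y (e.symm i))
            ((MvPolynomial.eval res) ((MvPolynomial.map (algebraMap ℂ
              (MvPolynomial (Fin (s + 1)) ℂ))) (g l))) =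
            MvPolynomial.eval₂ (RingHom.id ℂ) (fun j => MvPolynomial.eval
              (fun i => y (e.symm i)) (res j)) (g l) := by
          rw [← MvPolynomial.eval₂_eq_eval_map, MvPolynomial.hom_eval₂]
          congr 1
          ext a
          simp
        rw [h5, MvPolynomial.eval₂_id]
        congr 2
        funext j
        simp only [hres, tailPt]
        rcases (splitIdx r κ).symm j with i | l'
        · simp
        · simp
      rw [h3, h4, ← add_sub_assoc, add_sub_cancel_left] at h2
      exact h2
    have h2 := hF0 _ h1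
    funext l
    have h3 := congrFun h2 (e l)
    rwa [e.symm_apply_apply] at h3

end Pool.Agent.H79.Sys
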